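import Pool.Agent.PFJ.StmtsG
import Pool.Agent.Helper41_PFB.Bpx

set_option autoImplicit false

/-!
# Squad PFJ, row G_BPB: biproximal elements on one strictly convex factor
-/

open Matrix Filter Topology

namespace Pool.Agent.PFJ.H41

open Pool.Agent.PFS Pool.Agent.PFJ
open Pool.Agent.PFB.H41 (lm lm_apply lm_cont lm_inv lm_inv' lm_cl face_cmp)

variable {n : ℕ} {C : Set (V n)} {Γ : Subgroup (GL (Fin n) ℝ)}

theorem img_mem {γ : GL (Fin n) ℝ} {U U' : Submodule ℝ (V n)} (h : img γ U = U') {t : ℝ}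
    (ht : 0 < t) {y : V n} : lm t γ y ∈ U' ↔ y ∈ U := by
  rw [lm_apply, ← h]
  constructor
  · intro h1
    have h2 := (img γ U).smul_mem t⁻¹ h1
    rw [smul_smul, inv_mul_cancel₀ ht.ne', one_smul] at h2
    obtain ⟨y', hy', h3⟩ := mem_img.1 h2
    rwa [CC.act_injective γ h3] at hy'
  · intro h1
    exact (img γ U).smul_mem _ (mem_img.2 ⟨y, h1, rfl⟩)

theorem unt_lm (h : CC C Γ) {γ : GL (Fin n) ℝ} (hγ : γ ∈ Γ) {t : ℝ} (ht : 0 < t)
    {U U' : Submodule ℝ (V n)} (hU : img γ U = U') (y : V n) :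
    Unt C U' (lm t γ y) ↔ Unt C U y := by
  unfold Unt
  rw [img_mem hU ht, lm_cl h ht hγ]
  refine and_congr_right fun _ => and_congr_right fun _ => ?_
  constructor
  · intro h1 z hz
    obtain ⟨M, hM, h2⟩ := h1 (lm t γ z) ((img_mem hU ht).2 hz)
    rw [← map_smul, ← map_sub, lm_cl h ht hγ] at h2
    exact ⟨M, hM, h2⟩
  · intro h1 z hz
    have hz' : lm t γ (lm t⁻¹ γ⁻¹ z) = z := lm_inv' ht γ z
    have hz'' : lm t⁻¹ γ⁻¹ z ∈ U := by
      rw [← img_mem hU ht, hz']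
      exact hz
    obtain ⟨M, hM, h2⟩ := h1 _ hz''
    refine ⟨M, hM, ?_⟩
    rw [← lm_cl h ht hγ, map_sub, map_smul, hz'] at h2
    exact h2

theorem unt_face (hPC : PCone C) {U : Submodule ℝ (V n)} {x y : V n} (hx : Unt C U x)
    (hy : Unt C U y) : y ∈ Face C x := by
  obtain ⟨M, hM, h1⟩ := hx.2.2 y hy.1
  obtain ⟨M', hM', h2⟩ := hy.2.2 x hx.1
  refine ⟨(M + M')⁻¹, by positivity, ?_, ?_⟩
  · have e : x - (M + M')⁻¹ • y = (M + M')⁻¹ • ((M • x - y) + M' • x) := by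
      have h3 : (M + M')⁻¹ * (M + M') = 1 := inv_mul_cancel₀ (by positivity)
      have h4 : (M • x - y) + M' • x = (M + M') • x - y := by
        rw [add_smul]
        abel
      rw [h4, smul_sub, smul_smul, h3, one_smul]
    rw [e]
    exact hPC.cl_smul (hPC.cl_add h1 (hPC.cl_smul hx.2.1 hM'.le)) (by positivity)
  · have e : y - (M + M')⁻¹ • x = (M + M')⁻¹ • ((M' • y - x) + M • y) := by
      have h3 : (M + M')⁻¹ * (M + M') = 1 := inv_mul_cancel₀ (by positivity)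
      have h4 : (M' • y - x) + M • y = (M + M') • y - x := by
        rw [add_smul]
        abel
      rw [h4, smul_sub, smul_smul, h3, one_smul]
    rw [e]
    exact hPC.cl_smul (hPC.cl_add h2 (hPC.cl_smul hy.2.1 hM.le)) (by positivity)

theorem core (hFCE : PFB.FceStmt) (hFPC : PFB.FpcStmt) (hBIP : PFB.BipStmt) (h : CC C Γ)
    {U0 U1 : Submodule ℝ (V n)} {x0 x1 X0 X1 : V n} {g : ℕ → GL (Fin n) ℝ} {s e : ℕ → ℝ}
    {g0 : GL (Fin n) ℝ} {s0 : ℝ}
    (hS0 : ∀ x ∈ U0, ∀ y ∈ U0, x ∈ closure C → y ∈ closure C → Ind2 x y → Unt C U0 (x + y))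
    (hS1 : ∀ x ∈ U1, ∀ y ∈ U1, x ∈ closure C → y ∈ closure C → Ind2 x y → Unt C U1 (x + y))
    (hspan : Submodule.span ℝ (Face C (x0 + x1)) = U0)
    (hface : ∀ y, y ∈ Face C (x0 + x1) ↔ Unt C U0 y)
    (hx0 : x0 ∈ U0) (hx1 : x1 ∈ U0) (hx0C : x0 ∈ closure C) (hx1C : x1 ∈ closure C)
    (hxi : Ind2 x0 x1) (hx0n : ¬ Unt C U0 x0)
    (hX0 : X0 ∈ U1) (hX1 : X1 ∈ U1) (hX0C : X0 ∈ closure C) (hX1C : X1 ∈ closure C)
    (hXi : Ind2 X0 X1) (hX1n : ¬ Unt C U1 X1)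
    (hg : ∀ m, g m ∈ Γ) (hs : ∀ m, 0 < s m) (hepos : ∀ m, 0 < e m) (hetop : Tendsto e atTop atTop)
    (himg : ∀ m, img (g m) U0 = U1) (hg0 : g0 ∈ Γ) (hs0 : 0 < s0) (himg0 : img g0 U0 = U1)
    (l0 : Tendsto (fun m => lm (s m) (g m) (e m • x0)) atTop (𝓝 X0))
    (l1 : Tendsto (fun m => lm (s m) (g m) ((e m)⁻¹ • x1)) atTop (𝓝 X1))
    (hm0 : Ind2 (lm s0 g0 x0) X1) :
    ∃ m, ∃ (y0 y1 : V n) (lam mu : ℝ), y0 ∈ U0 ∧ y1 ∈ U0 ∧
      y0 ∈ closure C ∧ y1 ∈ closure C ∧ Ind2 y0 y1 ∧ 0 < lam ∧ lam < mu ∧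
      act (g0⁻¹ * g m) y0 = lam • y0 ∧ act (g0⁻¹ * g m) y1 = mu • y1 := by
  have hPC := h.toPCone
  have heinv : Tendsto (fun m => (e m)⁻¹) atTop (𝓝 0) := hetop.inv_tendsto_atTop
  obtain ⟨f, hf⟩ : ∃ f, f = x0 + x1 := ⟨_, rfl⟩
  have hfC : x0 + x1 ∈ closure C := hPC.cl_add hx0C hx1C
  have hf0 : x0 + x1 ≠ 0 := by
    intro h1
    exact one_ne_zero (hxi 1 1 (by rw [one_smul, one_smul]; exact h1)).1
  obtain ⟨f1, -, -, -, f5, -⟩ := hFCE n C hPC _ hfC hf0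
  have hXC : X0 + X1 ∈ closure C := hPC.cl_add hX0C hX1C
  have hXne : X0 + X1 ≠ 0 := by
    intro h1
    exact one_ne_zero (hXi 1 1 (by rw [one_smul, one_smul]; exact h1)).1
  obtain ⟨F1, -, -, -, F5, -⟩ := hFCE n C hPC _ hXC hXne
  have hXU : Unt C U1 (X0 + X1) := hS1 _ hX0 _ hX1 hX0C hX1C hXi
  -- the maps
  have hHF : ∀ m y, lm s0⁻¹ g0⁻¹ (lm (s m) (g m) y) ∈ Face C (x0 + x1) ↔
      y ∈ Face C (x0 + x1) := by
    intro m y
    rw [hface, hface]
    exact ((unt_lm h hg0 hs0 himg0 _).symm.trans (by rw [lm_inv' hs0])).trans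
      (unt_lm h (hg m) (hs m) (himg m) y)
  have hHF' : ∀ m y, lm (s m)⁻¹ (g m)⁻¹ (lm s0 g0 y) ∈ Face C (x0 + x1) ↔
      y ∈ Face C (x0 + x1) := by
    intro m y
    rw [hface, hface]
    exact ((unt_lm h (hg m) (hs m) (himg m) _).symm.trans (by rw [lm_inv' (hs m)])).trans
      (unt_lm h hg0 hs0 himg0 y)
  -- the point b
  obtain ⟨b, hb⟩ : ∃ b, b = lm s0⁻¹ g0⁻¹ X1 := ⟨_, rfl⟩
  have hbU : b ∈ U0 := by
    rw [← img_mem himg0 hs0, hb, lm_inv' hs0]
    exact hX1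
  have hbC : b ∈ closure C := by
    rw [hb, lm_cl h (inv_pos.2 hs0) (Γ.inv_mem hg0)]
    exact hX1C
  have hbc : b ∈ closure (Face C (x0 + x1)) := (f5 b).2 ⟨hbC, by rw [hspan]; exact hbU⟩
  have hbn : b ∉ Face C (x0 + x1) := by
    rw [hface, ← unt_lm h hg0 hs0 himg0, hb, lm_inv' hs0]
    exact hX1n
  have hblim : Tendsto (fun m => (e m)⁻¹ • lm s0⁻¹ g0⁻¹ (lm (s m) (g m) f)) atTop (𝓝 b) := by
    have h1 : Tendsto (fun m => ((e m)⁻¹ * (e m)⁻¹) • lm (s m) (g m) (e m • x0) +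
        lm (s m) (g m) ((e m)⁻¹ • x1)) atTop (𝓝 (((0 : ℝ) * 0) • X0 + X1)) :=
      ((heinv.mul heinv).smul l0).add l1
    rw [mul_zero, zero_smul, zero_add] at h1
    have h2 := ((lm_cont s0⁻¹ g0⁻¹).tendsto X1).comp h1
    rw [← hb] at h2
    refine h2.congr fun m => ?_
    show lm s0⁻¹ g0⁻¹ (((e m)⁻¹ * (e m)⁻¹) • lm (s m) (g m) (e m • x0) +
      lm (s m) (g m) ((e m)⁻¹ • x1)) = _
    rw [hf]
    simp only [map_add, map_smul, smul_add, smul_smul]
    rw [mul_assoc, inv_mul_cancel₀ (hepos m).ne', mul_one]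
  -- the point a
  have hy : lm s0 g0 f ∈ Face C (X0 + X1) := by
    refine unt_face hPC hXU ((unt_lm h hg0 hs0 himg0 f).2 ?_)
    rw [← hface, hf]
    exact f1
  obtain ⟨u, hu⟩ : ∃ u : ℕ → V n, u = fun m => lm (s m) (g m) (e m • x0) +
    lm (s m) (g m) ((e m)⁻¹ • x1) := ⟨_, rfl⟩
  have hulim : Tendsto u atTop (𝓝 (X0 + X1)) := by
    rw [hu]
    exact l0.add l1
  have hcomb : ∀ α β : ℝ, 0 < α → 0 < β → α • x0 + β • x1 ∈ Face C (x0 + x1) := by
    intro α β hα hβ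
    refine ⟨(α + β + α⁻¹ + β⁻¹)⁻¹, by positivity, ?_, ?_⟩
    · have e1 : x0 + x1 - (α + β + α⁻¹ + β⁻¹)⁻¹ • (α • x0 + β • x1) =
          (1 - (α + β + α⁻¹ + β⁻¹)⁻¹ * α) • x0 + (1 - (α + β + α⁻¹ + β⁻¹)⁻¹ * β) • x1 := by
        rw [smul_add, smul_smul, smul_smul, sub_smul, sub_smul, one_smul, one_smul]
        abel
      rw [e1]
      have hα' : 0 < α⁻¹ := inv_pos.2 hα
      have hβ' : 0 < β⁻¹ := inv_pos.2 hβ
      refine hPC.cl_add (hPC.cl_smul hx0C ?_) (hPC.cl_smul hx1C ?_)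
      · rw [sub_nonneg, inv_mul_le_iff₀ (by positivity)]
        linarith
      · rw [sub_nonneg, inv_mul_le_iff₀ (by positivity)]
        linarith
    · have e1 : α • x0 + β • x1 - (α + β + α⁻¹ + β⁻¹)⁻¹ • (x0 + x1) =
          (α - (α + β + α⁻¹ + β⁻¹)⁻¹) • x0 + (β - (α + β + α⁻¹ + β⁻¹)⁻¹) • x1 := by
        rw [smul_add, sub_smul, sub_smul]
        abel
      rw [e1]
      have hα' : 0 < α⁻¹ := inv_pos.2 hα
      have hβ' : 0 < β⁻¹ := inv_pos.2 hβ
      refine hPC.cl_add (hPC.cl_smul hx0C ?_) (hPC.cl_smul hx1C ?_)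
      · rw [sub_nonneg, inv_le_comm₀ (by positivity) hα]
        linarith
      · rw [sub_nonneg, inv_le_comm₀ (by positivity) hβ]
        linarith
  have huF : ∀ m, u m ∈ Face C (X0 + X1) := by
    intro m
    rw [hu]
    simp only
    rw [← map_add]
    refine unt_face hPC hXU ((unt_lm h (hg m) (hs m) (himg m) _).2 ?_)
    rw [← hface]
    exact hcomb _ _ (hepos m) (inv_pos.2 (hepos m))
  have hsubW : Face C (X0 + X1) ⊆ closure C := fun z hz =>
    ((F5 z).1 (subset_closure hz)).1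
  obtain ⟨M, hM, hMev⟩ := face_cmp hFPC hPC hXC hXne hsubW F1 hy huF hulim
  obtain ⟨A, hA⟩ : ∃ A : ℕ → V n, A = fun m =>
    (e m)⁻¹ • lm (s m)⁻¹ (g m)⁻¹ (lm s0 g0 f) := ⟨_, rfl⟩
  obtain ⟨z, hz⟩ : ∃ z : ℕ → V n, z = fun m => x0 + ((e m)⁻¹ * (e m)⁻¹) • x1 := ⟨_, rfl⟩
  have hzlim : Tendsto z atTop (𝓝 x0) := by
    have h1 : Tendsto z atTop (𝓝 (x0 + ((0 : ℝ) * 0) • x1)) := by
      rw [hz]
      exact tendsto_const_nhds.add ((heinv.mul heinv).smul_const x1)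
    rwa [mul_zero, zero_smul, add_zero] at h1
  have hzu : ∀ m, (e m)⁻¹ • lm (s m)⁻¹ (g m)⁻¹ (u m) = z m := by
    intro m
    rw [hu, hz]
    simp only
    rw [← map_add, lm_inv (hs m), smul_add, smul_smul, smul_smul,
      inv_mul_cancel₀ (hepos m).ne', one_smul]
  have hAcl : ∀ m, A m ∈ closure C := by
    intro m
    rw [hA]
    refine hPC.cl_smul ?_ (inv_pos.2 (hepos m)).le
    rw [lm_cl h (inv_pos.2 (hs m)) (Γ.inv_mem (hg m)), lm_cl h hs0 hg0, hf]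
    exact hfC
  have hAU : ∀ m, A m ∈ U0 := by
    intro m
    rw [hA]
    refine U0.smul_mem _ ?_
    rw [← img_mem (himg m) (hs m), lm_inv' (hs m), img_mem himg0 hs0, hf]
    exact U0.add_mem hx0 hx1
  have hcmpA : ∀ᶠ m in atTop, M • z m - A m ∈ closure C ∧ M • A m - z m ∈ closure C := by
    filter_upwards [hMev] with m hm
    obtain ⟨h1, h2⟩ := hm
    have k1 := hPC.cl_smul ((lm_cl h (inv_pos.2 (hs m)) (Γ.inv_mem (hg m))).2 h1)
      (inv_pos.2 (hepos m)).le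
    have k2 := hPC.cl_smul ((lm_cl h (inv_pos.2 (hs m)) (Γ.inv_mem (hg m))).2 h2)
      (inv_pos.2 (hepos m)).le
    rw [map_sub, map_smul, smul_sub, smul_comm (e m)⁻¹ M, hzu] at k1
    rw [map_sub, map_smul, smul_sub, smul_comm (e m)⁻¹ M, hzu] at k2
    rw [hA]
    exact ⟨k1, k2⟩
  obtain ⟨B, hB, hBn⟩ := hPC.normal
  have hbdd : ∀ᶠ m in atTop, A m ∈ Metric.closedBall (0 : V n) (B * (M * (‖x0‖ + 1))) := by
    have h1 : ∀ᶠ m in atTop, ‖z m‖ < ‖x0‖ + 1 :=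
      hzlim.norm.eventually_lt_const (by linarith)
    filter_upwards [hcmpA, h1] with m hm hm1
    rw [mem_closedBall_zero_iff]
    refine (hBn _ _ (hAcl m) hm.1).trans (mul_le_mul_of_nonneg_left ?_ hB.le)
    rw [norm_smul, Real.norm_of_nonneg hM.le]
    exact mul_le_mul_of_nonneg_left hm1.le hM.le
  obtain ⟨a, -, ψ, hψ, hψlim⟩ := tendsto_subseq_of_frequently_bounded
    (Metric.isBounded_closedBall) hbdd.frequently
  have hacl : a ∈ closure C := isClosed_closure.mem_of_tendsto hψlim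
    (Eventually.of_forall fun m => hAcl _)
  have haU : a ∈ U0 := (Submodule.closed_of_finiteDimensional U0).mem_of_tendsto hψlim
    (Eventually.of_forall fun m => hAU _)
  have ha1 : M • x0 - a ∈ closure C := by
    have h1 : Tendsto (fun m => M • z (ψ m) - A (ψ m)) atTop (𝓝 (M • x0 - a)) :=
      ((hzlim.comp hψ.tendsto_atTop).const_smul M).sub hψlim
    exact isClosed_closure.mem_of_tendsto h1
      ((hψ.tendsto_atTop.eventually hcmpA).mono fun m hm => hm.1)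
  have ha2 : M • a - x0 ∈ closure C := by
    have h1 : Tendsto (fun m => M • A (ψ m) - z (ψ m)) atTop (𝓝 (M • a - x0)) :=
      (hψlim.const_smul M).sub (hzlim.comp hψ.tendsto_atTop)
    exact isClosed_closure.mem_of_tendsto h1
      ((hψ.tendsto_atTop.eventually hcmpA).mono fun m hm => hm.2)
  have hx0ne : x0 ≠ 0 := by
    rintro h1
    exact one_ne_zero (hxi 1 0 (by rw [h1, smul_zero, zero_smul, add_zero])).1
  obtain ⟨c, hc, hac⟩ : ∃ c : ℝ, 0 < c ∧ a = c • x0 := by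
    have hdep : ¬ Ind2 a x0 := by
      intro hi
      have h1 := hS0 a haU x0 hx0 hacl hx0C hi
      apply hx0n
      refine ⟨hx0, hx0C, fun y hy => ?_⟩
      obtain ⟨M', hM', h2⟩ := h1.2.2 y hy
      refine ⟨M' * (M + 1), by positivity, ?_⟩
      have e1 : (M' * (M + 1)) • x0 - y = M' • (M • x0 - a) + (M' • (a + x0) - y) := by
        rw [smul_sub, smul_add, smul_smul, mul_add, mul_one, add_smul]
        abel
      rw [e1]
      exact hPC.cl_add (hPC.cl_smul ha1 hM'.le) h2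
    unfold Ind2 at hdep
    push Not at hdep
    obtain ⟨α, β, h1, h2⟩ := hdep
    have hα : α ≠ 0 := by
      rintro rfl
      rw [zero_smul, zero_add] at h1
      rcases smul_eq_zero.1 h1 with h3 | h3
      · exact h2 rfl h3
      · exact hx0ne h3
    have h3 : a = (-β / α) • x0 := by
      have h4 : α • a = -(β • x0) := eq_neg_of_add_eq_zero_left h1
      have h5 := congrArg (fun v => α⁻¹ • v) h4
      rw [smul_smul, inv_mul_cancel₀ hα, one_smul, ← neg_smul, smul_smul, inv_mul_eq_div] at h5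
      exact h5
    refine ⟨-β / α, ?_, h3⟩
    by_contra hcon
    push Not at hcon
    rcases hcon.eq_or_lt with h4 | h4
    · rw [h4, zero_smul] at h3
      rw [h3, smul_zero, zero_sub] at ha2
      exact hx0ne (hPC.salient _ hx0C ha2)
    · have h5 : -x0 ∈ closure C := by
        have h6 := hPC.cl_smul hacl (t := (-(-β / α))⁻¹) (inv_nonneg.2 (by linarith))
        have e1 : (-(-β / α))⁻¹ • a = -x0 := by
          have h7 : (-(-β / α))⁻¹ * (-β / α) = -1 := by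
            have : -β / α ≠ 0 := h4.ne
            rw [inv_neg, neg_mul, inv_mul_cancel₀ this]
          rw [h3, smul_smul, h7, neg_smul, one_smul]
        rwa [e1] at h6
      exact hx0ne (hPC.salient _ hx0C h5)
  have hacF : a ∈ closure (Face C (x0 + x1)) := (f5 a).2 ⟨hacl, by rw [hspan]; exact haU⟩
  have hanF : a ∉ Face C (x0 + x1) := by
    rw [hface]
    intro h1
    apply hx0n
    refine ⟨hx0, hx0C, fun y hy => ?_⟩
    obtain ⟨M', hM', h2⟩ := h1.2.2 y hy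
    refine ⟨M' * c, by positivity, ?_⟩
    rwa [hac, smul_smul] at h2
  have hab : Ind2 a b := by
    intro α β hαβ
    have h1 := congrArg (lm s0 g0) hαβ
    rw [map_add, map_smul, map_smul, map_zero, hac, hb, lm_inv' hs0, map_smul, smul_smul] at h1
    obtain ⟨h2, h3⟩ := hm0 _ _ h1
    exact ⟨(mul_eq_zero.1 h2).resolve_right hc.ne', h3⟩
  -- coordinates of the face
  obtain ⟨ι, hinj, hran, hF, hFcl⟩ := hFPC n C hPC _ hfC hf0 _ rfl
  obtain ⟨κ, hκ⟩ := ι.exists_leftInverse_of_injective (LinearMap.ker_eq_bot.2 hinj)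
  have hκι : ∀ z, κ (ι z) = z := fun z => by
    have := LinearMap.congr_fun hκ z
    simpa using this
  have hrange : ∀ v ∈ U0, ι (κ v) = v := by
    intro v hv
    rw [← hspan, ← hran] at hv
    obtain ⟨z', rfl⟩ := hv
    rw [hκι]
  have hκc : Continuous κ := κ.continuous_of_finiteDimensional
  have hιmem : ∀ v, ι v ∈ U0 := by
    intro v
    exact hspan.le (hran.le ⟨v, rfl⟩)
  have hspan1 : ∀ m, ∀ v ∈ U0, lm s0⁻¹ g0⁻¹ (lm (s m) (g m) v) ∈ U0 := by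
    intro m v hv
    rw [← img_mem himg0 hs0, lm_inv' hs0, img_mem (himg m) (hs m)]
    exact hv
  have hspan2 : ∀ m, ∀ v ∈ U0, lm (s m)⁻¹ (g m)⁻¹ (lm s0 g0 v) ∈ U0 := by
    intro m v hv
    rw [← img_mem (himg m) (hs m), lm_inv' (hs m), img_mem himg0 hs0]
    exact hv
  obtain ⟨L, hL1, hL2⟩ : ∃ L : ℕ → (V _ ≃ₗ[ℝ] V _),
      (∀ m v, ι (L m v) = lm s0⁻¹ g0⁻¹ (lm (s m) (g m) (ι v))) ∧
      (∀ m v, ι ((L m).symm v) = lm (s m)⁻¹ (g m)⁻¹ (lm s0 g0 (ι v))) := by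
    have h1 : ∀ m v, ι (κ (lm s0⁻¹ g0⁻¹ (lm (s m) (g m) (ι v)))) =
        lm s0⁻¹ g0⁻¹ (lm (s m) (g m) (ι v)) := fun m v =>
      hrange _ (hspan1 m _ (hιmem v))
    have h2 : ∀ m v, ι (κ (lm (s m)⁻¹ (g m)⁻¹ (lm s0 g0 (ι v)))) =
        lm (s m)⁻¹ (g m)⁻¹ (lm s0 g0 (ι v)) := fun m v =>
      hrange _ (hspan2 m _ (hιmem v))
    refine ⟨fun m => LinearEquiv.ofLinearMap
      (κ.comp (((lm s0⁻¹ g0⁻¹).comp (lm (s m) (g m))).comp ι))
      (κ.comp (((lm (s m)⁻¹ (g m)⁻¹).comp (lm s0 g0)).comp ι)) ?_ ?_,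
      fun m v => h1 m v, fun m v => h2 m v⟩
    · apply LinearMap.ext
      intro v
      show κ (lm s0⁻¹ g0⁻¹ (lm (s m) (g m)
        (ι (κ (lm (s m)⁻¹ (g m)⁻¹ (lm s0 g0 (ι v))))))) = v
      rw [h2, lm_inv' (hs m), lm_inv hs0, hκι]
    · apply LinearMap.ext
      intro v
      show κ (lm (s m)⁻¹ (g m)⁻¹ (lm s0 g0
        (ι (κ (lm s0⁻¹ g0⁻¹ (lm (s m) (g m) (ι v))))))) = v
      rw [h1, lm_inv' hs0, lm_inv (hs m), hκι]
  have hstrict : PFB.Strict (ι ⁻¹' Face C (x0 + x1)) := by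
    intro y1 hy1 y2 hy2 hy12
    show ι (y1 + y2) ∈ Face C (x0 + x1)
    rw [map_add, hface]
    refine hS0 _ (hιmem _) _ (hιmem _) ((f5 _).1 ((hFcl _).1 hy1)).1
      ((f5 _).1 ((hFcl _).1 hy2)).1 ?_
    rw [LinearIndependent.pair_iff] at hy12
    intro α β hαβ
    rw [← map_smul, ← map_smul, ← map_add] at hαβ
    exact hy12 _ _ (hinj (hαβ.trans (map_zero ι).symm))
  have hfU : f ∈ U0 := by
    rw [hf]
    exact U0.add_mem hx0 hx1
  obtain ⟨m, a', b', lam, mu, ha', hb', hab', hlam, hlm, hea, heb⟩ := hBIP _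
    (ι ⁻¹' Face C (x0 + x1)) hF hstrict (fun m => L (ψ m)) (fun m => (e (ψ m))⁻¹)
    (fun m => (e (ψ m))⁻¹) (κ f) (κ a) (κ b)
    (fun m x => by
      show ι (L (ψ m) x) ∈ Face C (x0 + x1) ↔ ι x ∈ Face C (x0 + x1)
      rw [hL1]
      exact hHF _ _)
    (fun m => inv_pos.2 (hepos _)) (fun m => inv_pos.2 (hepos _))
    (by
      show ι (κ f) ∈ Face C (x0 + x1)
      rw [hrange _ hfU, hf]
      exact f1)
    ((hFcl _).2 (by rw [hrange _ haU]; exact hacF))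
    (by
      show ι (κ a) ∉ Face C (x0 + x1)
      rw [hrange _ haU]
      exact hanF)
    ((hFcl _).2 (by rw [hrange _ hbU]; exact hbc))
    (by
      show ι (κ b) ∉ Face C (x0 + x1)
      rw [hrange _ hbU]
      exact hbn)
    (by
      rw [LinearIndependent.pair_iff]
      intro α β hαβ
      have h1 := congrArg ι hαβ
      rw [map_add, map_smul, map_smul, map_zero, hrange _ haU, hrange _ hbU] at h1
      exact hab _ _ h1)
    (by
      have h1 := (hκc.tendsto b).comp (hblim.comp hψ.tendsto_atTop)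
      refine h1.congr fun m => ?_
      show κ ((e (ψ m))⁻¹ • lm s0⁻¹ g0⁻¹ (lm (s (ψ m)) (g (ψ m)) f)) = _
      apply hinj
      rw [map_smul κ, map_smul ι, map_smul ι, hL1, hrange _ (hspan1 _ _ hfU), hrange _ hfU])
    (by
      have h1 := (hκc.tendsto a).comp hψlim
      refine h1.congr fun m => ?_
      show κ (A (ψ m)) = _
      rw [hA]
      apply hinj
      simp only
      rw [map_smul κ, map_smul ι, map_smul ι, hL2, hrange _ (hspan2 _ _ hfU), hrange _ hfU])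
  -- back to the original space
  obtain ⟨m1, hm1⟩ : ∃ m1, m1 = ψ m := ⟨_, rfl⟩
  simp only [← hm1] at hea heb
  obtain ⟨t, ht⟩ : ∃ t, t = s0⁻¹ * s m1 := ⟨_, rfl⟩
  have ht0 : 0 < t := by
    rw [ht]
    exact mul_pos (inv_pos.2 hs0) (hs m1)
  have hlmc : ∀ v, lm s0⁻¹ g0⁻¹ (lm (s m1) (g m1) v) = t • act (g0⁻¹ * g m1) v := by
    intro v
    rw [lm_apply, lm_apply, CC.act_smul, smul_smul, ← CC.act_mul, ht]
  have hac2 : ∀ (v : V _) (r : ℝ), L m1 v = r • v →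
      act (g0⁻¹ * g m1) (ι v) = (r / t) • ι v := by
    intro v r hv
    have h1 := hlmc (ι v)
    rw [← hL1, hv, map_smul] at h1
    have h2 := congrArg (fun v => t⁻¹ • v) h1
    rw [smul_smul, smul_smul, inv_mul_cancel₀ ht0.ne', one_smul, inv_mul_eq_div] at h2
    exact h2.symm
  refine ⟨m1, ι a', ι b', lam / t, mu / t, hιmem _, hιmem _, ((f5 _).1 ((hFcl _).1 ha')).1,
    ((f5 _).1 ((hFcl _).1 hb')).1, ?_, div_pos hlam ht0, div_lt_div_of_pos_right hlm ht0,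
    hac2 _ _ hea, hac2 _ _ heb⟩
  rw [LinearIndependent.pair_iff] at hab'
  intro p q hpq
  rw [← map_smul, ← map_smul, ← map_add] at hpq
  exact hab' _ _ (hinj (hpq.trans (map_zero ι).symm))

theorem bpb (hFCE : PFB.FceStmt) (hFPC : PFB.FpcStmt) (hBIP : PFB.BipStmt) : BpbStmt := by
  intro n C Γ h U0 U1 x0 x1 X0 X1 g s e hS0 hS1 hspan hface hx0 hx1 hx0C hx1C hxi hx0n hx1n
    hX0 hX1 hX0C hX1C hXi hX0n hX1n hg hs hepos hetop himg l0 l1
  have l0' : Tendsto (fun m => lm (s m) (g m) (e m • x0)) atTop (𝓝 X0) := l0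
  have l1' : Tendsto (fun m => lm (s m) (g m) ((e m)⁻¹ • x1)) atTop (𝓝 X1) := l1
  have hev : ∀ᶠ m in atTop, Ind2 (lm (s m) (g m) x0) X1 := by
    have h1 : Tendsto (fun m => (![lm (s m) (g m) (e m • x0), X1] : Fin 2 → V n)) atTop
        (𝓝 ![X0, X1]) := by
      rw [tendsto_pi_nhds]
      intro i
      fin_cases i
      · exact l0'
      · exact tendsto_const_nhds
    have h2 : IsOpen {f : Fin 2 → V n | LinearIndependent ℝ f} :=
      isOpen_setOfPred_linearIndependent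
    have h3 : LinearIndependent ℝ ![X0, X1] := LinearIndependent.pair_iff.2 hXi
    filter_upwards [h1.eventually (h2.mem_nhds h3)] with m hm
    have hm' : LinearIndependent ℝ ![lm (s m) (g m) (e m • x0), X1] := hm
    rw [LinearIndependent.pair_iff] at hm'
    intro α β hαβ
    have h3 := hm' (α / e m) β (by
      rw [map_smul, smul_smul, div_mul_cancel₀ _ (hepos m).ne']
      exact hαβ)
    refine ⟨?_, h3.2⟩
    have := h3.1
    rw [div_eq_zero_iff] at this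
    exact this.resolve_right (hepos m).ne'
  filter_upwards [hev] with m0 hm0
  by_contra hcon
  rw [Filter.not_eventually] at hcon
  obtain ⟨ψ, hψ, hψn⟩ := Filter.extraction_of_frequently_atTop hcon
  obtain ⟨m, hm⟩ := core hFCE hFPC hBIP h (g := fun m => g (ψ m)) (s := fun m => s (ψ m))
    (e := fun m => e (ψ m)) hS0 hS1 hspan hface hx0 hx1 hx0C hx1C hxi hx0n hX0 hX1 hX0C hX1C
    hXi hX1n (fun m => hg _) (fun m => hs _) (fun m => hepos _) (hetop.comp hψ.tendsto_atTop)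
    (fun m => himg _) (hg m0) (hs m0) (himg m0) (l0'.comp hψ.tendsto_atTop)
    (l1'.comp hψ.tendsto_atTop) hm0
  exact hψn m hm

end Pool.Agent.PFJ.H41
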