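import Pool.Agent.PFJ.StmtsG

set_option autoImplicit false

/-!
# Squad PFJ, row G_BP2: a simultaneously biproximal element
-/

open Matrix Filter Topology

namespace Pool.Agent.PFJ.H41

open Pool.Agent.PFS Pool.Agent.PFJ

theorem bp2 (hFCU : FcuStmt) (hNUN : NunStmt) (hZB2 : Zb2Stmt) (hBPB : BpbStmt)
    (hEI2 : Ei2Stmt) (hCHB : ChbStmt) : Bp2Stmt := by
  intro n C Γ K P hdat L w β hbox hP
  have hCC : CC C Γ := hdat.toCC
  have hPC := hCC.toPCone
  have h3 := hdat.three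
  have hfull := hdat.fam.full _ hP
  have hstr := hdat.strict L w β hbox hP
  obtain ⟨hn1, hn2, hn3⟩ := hNUN n C Γ hCC K L w β hbox
  -- partner
  have hpart : ∀ i : Fin K, ∃ j, (j ≠ i ∧ β j = β i) ∨ (j = i ∧ ∀ l, β l = β i → l = i) := by
    intro i
    by_cases h : ∃ j, j ≠ i ∧ β j = β i
    · obtain ⟨j, hj⟩ := h
      exact ⟨j, Or.inl hj⟩
    · refine ⟨i, Or.inr ⟨rfl, fun l hl => ?_⟩⟩
      by_contra hne
      exact h ⟨l, hne, hl⟩
  choose q hq using hpart
  have hq1 : ∀ i j, j ≠ i → β j = β i → q i = j := by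
    intro i j hji hβ
    rcases hq i with ⟨h1, h2⟩ | ⟨h1, h2⟩
    · rcases hbox.three i j (q i) hβ.symm (hβ.trans h2.symm) with h | h | h
      · exact absurd h.symm hji
      · exact h.symm
      · exact absurd h.symm h1
    · exact absurd (h2 j hβ) hji
  obtain ⟨φ, g, s, L', W, hφ, hg, hs, hB', hP', hlim, himg⟩ := hZB2 n C Γ K P hdat L w β hbox hP
    (fun m i => if i < q i then Real.exp m else if q i < i then Real.exp (-m) else 1) (by
      intro m i
      split_ifs <;> positivity)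
  have hstr' := hdat.strict L' W β hB' hP'
  obtain ⟨hn1', hn2', hn3'⟩ := hNUN n C Γ hCC K L' W β hB'
  have hetop : Tendsto (fun m : ℕ => Real.exp (φ m : ℝ)) atTop atTop :=
    Real.tendsto_exp_atTop.comp (tendsto_natCast_atTop_atTop.comp hφ.tendsto_atTop)
  have hpair : ∀ i j, i < j → β i = β j → ∀ᶠ m0 in atTop, ∀ᶠ m in atTop,
      ∃ (y0 y1 : V n) (lam mu : ℝ), y0 ∈ L (β i) ∧ y1 ∈ L (β i) ∧
      y0 ∈ closure C ∧ y1 ∈ closure C ∧ Ind2 y0 y1 ∧ 0 < lam ∧ lam < mu ∧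
      act ((g m0)⁻¹ * g m) y0 = lam • y0 ∧ act ((g m0)⁻¹ * g m) y1 = mu • y1 := by
    intro i j hij hβ
    have hne : i ≠ j := hij.ne
    have hqi : q i = j := hq1 i j hne.symm hβ.symm
    have hqj : q j = i := hq1 j i hne hβ
    have hfil : Finset.univ.filter (fun l : Fin K => β l = β i) = {i, j} := by
      ext l
      rw [Finset.mem_filter, Finset.mem_insert, Finset.mem_singleton]
      constructor
      · rintro ⟨-, hl⟩
        by_cases hli : l = i
        · exact Or.inl hli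
        · exact Or.inr ((hq1 i l hli hl).symm.trans hqi)
      · rintro (rfl | rfl)
        · exact ⟨Finset.mem_univ _, rfl⟩
        · exact ⟨Finset.mem_univ _, hβ.symm⟩
    obtain ⟨-, -, -, hface, hspan, -⟩ := hFCU n C Γ hCC K h3 L w β hbox hfull i (w i + w j) (by
      rw [hfil, Finset.sum_pair hne])
    have li := hlim i
    have lj := hlim j
    have ci : ∀ m : ℕ, (if i < q i then Real.exp (φ m : ℝ) else if q i < i then
        Real.exp (-(φ m : ℝ)) else 1) = Real.exp (φ m : ℝ) := fun m => by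
      rw [hqi, if_pos hij]
    have cj : ∀ m : ℕ, (if j < q j then Real.exp (φ m : ℝ) else if q j < j then
        Real.exp (-(φ m : ℝ)) else 1) = (Real.exp (φ m : ℝ))⁻¹ := fun m => by
      rw [hqj, if_neg (not_lt.2 hij.le), if_pos hij, Real.exp_neg]
    simp only [ci] at li
    simp only [cj] at lj
    have hwj : w j ∈ L (β i) := by
      rw [hβ]
      exact hbox.mem j
    have hWj : W j ∈ L' (β i) := by
      rw [hβ]
      exact hB'.mem j
    have hnj : ¬ Unt C (L (β i)) (w j) := by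
      rw [hβ]
      exact hn1 j i hne.symm hβ.symm
    have hnj' : ¬ Unt C (L' (β i)) (W j) := by
      rw [hβ]
      exact hn1' j i hne.symm hβ.symm
    exact hBPB n C Γ hCC (L (β i)) (L' (β i)) (w i) (w j) (W i) (W j) g s
      (fun m => Real.exp (φ m : ℝ)) (hstr (β i)) (hstr' (β i)) hspan hface (hbox.mem i) hwj
      (hn3 i).1 (hn3 j).1 (hn2 i j hne) (hn1 i j hne hβ) hnj (hB'.mem i) hWj (hn3' i).1
      (hn3' j).1 (hn2' i j hne) (hn1' i j hne hβ) hnj' hg hs (fun m => Real.exp_pos _) hetop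
      (fun m => himg m (β i)) li lj
  -- fixed indices
  have hall : ∀ᶠ m0 in atTop, ∀ i j, i < j → β i = β j → ∀ᶠ m in atTop,
      ∃ (y0 y1 : V n) (lam mu : ℝ), y0 ∈ L (β i) ∧ y1 ∈ L (β i) ∧
      y0 ∈ closure C ∧ y1 ∈ closure C ∧ Ind2 y0 y1 ∧ 0 < lam ∧ lam < mu ∧
      act ((g m0)⁻¹ * g m) y0 = lam • y0 ∧ act ((g m0)⁻¹ * g m) y1 = mu • y1 := by
    rw [Filter.eventually_all]
    intro i
    rw [Filter.eventually_all]
    intro j
    by_cases hij : i < j
    · by_cases hβ : β i = β j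
      · filter_upwards [hpair i j hij hβ] with m hm _ _
        exact hm
      · exact Eventually.of_forall fun m _ h2 => absurd h2 hβ
    · exact Eventually.of_forall fun m h1 => absurd h1 hij
  obtain ⟨m0, hm0⟩ := hall.exists
  have hall2 : ∀ᶠ m in atTop, ∀ i j, i < j → β i = β j →
      ∃ (y0 y1 : V n) (lam mu : ℝ), y0 ∈ L (β i) ∧ y1 ∈ L (β i) ∧
      y0 ∈ closure C ∧ y1 ∈ closure C ∧ Ind2 y0 y1 ∧ 0 < lam ∧ lam < mu ∧
      act ((g m0)⁻¹ * g m) y0 = lam • y0 ∧ act ((g m0)⁻¹ * g m) y1 = mu • y1 := by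
    rw [Filter.eventually_all]
    intro i
    rw [Filter.eventually_all]
    intro j
    by_cases hij : i < j
    · by_cases hβ : β i = β j
      · filter_upwards [hm0 i j hij hβ] with m hm _ _
        exact hm
      · exact Eventually.of_forall fun m _ h2 => absurd h2 hβ
    · exact Eventually.of_forall fun m h1 => absurd h1 hij
  obtain ⟨m, hm⟩ := hall2.exists
  obtain ⟨σ, hσ⟩ : ∃ σ : GL (Fin n) ℝ, σ = (g m0)⁻¹ * g m := ⟨_, rfl⟩
  rw [← hσ] at hm
  have hσΓ : σ ∈ Γ := by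
    rw [hσ]
    exact Γ.mul_mem (Γ.inv_mem (hg m0)) (hg m)
  -- the vertices one by one
  have hvert : ∀ i j : Fin K, ∃ (y0 y1 : V n) (lam mu : ℝ), i < j → β i = β j →
      y0 ∈ L (β i) ∧ y1 ∈ L (β i) ∧
      y0 ∈ closure C ∧ y1 ∈ closure C ∧ Ind2 y0 y1 ∧ 0 < lam ∧ lam < mu ∧
      act σ y0 = lam • y0 ∧ act σ y1 = mu • y1 := by
    intro i j
    by_cases hij : i < j ∧ β i = β j
    · obtain ⟨y0, y1, lam, mu, h⟩ := hm i j hij.1 hij.2
      exact ⟨y0, y1, lam, mu, fun _ _ => h⟩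
    · exact ⟨0, 0, 0, 0, fun h1 h2 => absurd ⟨h1, h2⟩ hij⟩
  choose y0 y1 lam mu hy using hvert
  have hsing : ∀ i : Fin K, ∃ c : ℝ, (∀ l, β l = β i → l = i) →
      0 < c ∧ act σ (w i) = c • w i := by
    intro i
    by_cases hi : ∀ l, β l = β i → l = i
    · have h1 : act (g m) (w i) ∈ img (g m0) (L (β i)) := by
        rw [himg m0, ← himg m]
        exact mem_img.2 ⟨w i, hbox.mem i, rfl⟩
      obtain ⟨y, hyL, hy2⟩ := mem_img.1 h1
      have h2 : act σ (w i) = y := by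
        rw [hσ, CC.act_mul, ← hy2, CC.act_inv_act]
      obtain ⟨c, hc⟩ := hbox.one i hi y hyL
      rw [← h2] at hc
      refine ⟨c, fun _ => ⟨?_, hc⟩⟩
      obtain ⟨hwC, hw0⟩ := hn3 i
      have h4 : act σ (w i) ∈ closure C := (hCC.act_cl_iff hσΓ).2 hwC
      by_contra hcon
      push Not at hcon
      rcases hcon.eq_or_lt with h5 | h5
      · rw [h5, zero_smul] at hc
        exact hw0 (CC.act_injective σ (hc.trans (CC.act_zero σ).symm))
      · have h6 := hPC.cl_smul h4 (t := (-c)⁻¹) (inv_nonneg.2 (by linarith))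
        have h7 : (-c)⁻¹ • act σ (w i) = -w i := by
          rw [hc, smul_smul, inv_neg, neg_mul, inv_mul_cancel₀ h5.ne, neg_smul, one_smul]
        rw [h7] at h6
        exact hw0 (hPC.salient _ hwC h6)
    · exact ⟨0, fun h => absurd h hi⟩
  choose cc hcc using hsing
  -- the new vertices
  obtain ⟨w', hw'⟩ : ∃ w' : Fin K → V n, w' = fun i =>
    if i < q i then y0 i (q i) else if q i < i then y1 (q i) i else w i := ⟨_, rfl⟩
  obtain ⟨nu, hnu⟩ : ∃ nu : Fin K → ℝ, nu = fun i =>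
    if i < q i then lam i (q i) else if q i < i then mu (q i) i else cc i := ⟨_, rfl⟩
  have hp1 : ∀ i j, i < j → β i = β j → w' i = y0 i j ∧ w' j = y1 i j ∧ nu i = lam i j ∧
      nu j = mu i j := by
    intro i j hij hβ
    have hqi : q i = j := hq1 i j hij.ne' hβ.symm
    have hqj : q j = i := hq1 j i hij.ne hβ
    rw [hw', hnu]
    simp only
    rw [hqi, hqj]
    refine ⟨if_pos hij, ?_, if_pos hij, ?_⟩
    · rw [if_neg (not_lt.2 hij.le), if_pos hij]
    · rw [if_neg (not_lt.2 hij.le), if_pos hij]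
  have hcases : ∀ i : Fin K, (∃ j, i < j ∧ β i = β j) ∨ (∃ j, j < i ∧ β j = β i) ∨
      ((∀ l, β l = β i → l = i) ∧ w' i = w i ∧ nu i = cc i) := by
    intro i
    rcases hq i with ⟨h1, h2⟩ | ⟨h1, h2⟩
    · rcases lt_or_gt_of_ne h1 with h | h
      · exact Or.inr (Or.inl ⟨q i, h, h2⟩)
      · exact Or.inl ⟨q i, h, h2.symm⟩
    · refine Or.inr (Or.inr ⟨h2, ?_, ?_⟩)
      · rw [hw']
        simp only
        rw [h1, if_neg (lt_irrefl _), if_neg (lt_irrefl _)]
      · rw [hnu]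
        simp only
        rw [h1, if_neg (lt_irrefl _), if_neg (lt_irrefl _)]
  have hun : ∀ i j, i < j → β i = β j →
      ¬ Unt C (L (β i)) (y0 i j) ∧ ¬ Unt C (L (β i)) (y1 i j) := by
    intro i j hij hβ
    obtain ⟨k1, k2, k3, k4, k5, k6, k7, k8, k9⟩ := hy i j hij hβ
    exact (hEI2 n C Γ hCC (L (β i)) (hstr (β i)) σ hσΓ _ _ _ _ k1 k2 k3 k4 k5 k6 k7 k8 k9).2
  refine ⟨w', σ, nu, ?_, hσΓ, ?_, ?_⟩
  · refine hCHB n C Γ hCC K h3 L w β hbox hfull hstr w' ?_ ?_
    · intro i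
      rcases hcases i with ⟨j, hij, hβ⟩ | ⟨j, hij, hβ⟩ | ⟨hi, h1, -⟩
      · obtain ⟨k1, k2, k3, k4, k5, k6, k7, k8, k9⟩ := hy i j hij hβ
        rw [(hp1 i j hij hβ).1]
        refine ⟨k1, k3, fun h0 => ?_⟩
        exact one_ne_zero (k5 1 0 (by rw [h0, smul_zero, zero_smul, add_zero])).1
      · obtain ⟨k1, k2, k3, k4, k5, k6, k7, k8, k9⟩ := hy j i hij hβ
        rw [(hp1 j i hij hβ).2.1, ← hβ]
        refine ⟨k2, k4, fun h0 => ?_⟩
        exact one_ne_zero (k5 0 1 (by rw [h0, smul_zero, zero_smul, add_zero])).2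
      · rw [h1]
        exact ⟨hbox.mem i, (hn3 i).1, (hn3 i).2⟩
    · intro i j hne hβ
      rcases lt_or_gt_of_ne hne with hij | hij
      · obtain ⟨k1, k2, k3, k4, k5, k6, k7, k8, k9⟩ := hy i j hij hβ
        obtain ⟨p1, p2, -, -⟩ := hp1 i j hij hβ
        rw [p1, p2]
        exact ⟨k5, (hun i j hij hβ).1⟩
      · obtain ⟨k1, k2, k3, k4, k5, k6, k7, k8, k9⟩ := hy j i hij hβ.symm
        obtain ⟨p1, p2, -, -⟩ := hp1 j i hij hβ.symm
        rw [p1, p2]
        refine ⟨fun a b hab => ?_, ?_⟩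
        · have := k5 b a (by rw [add_comm]; exact hab)
          exact ⟨this.2, this.1⟩
        · rw [hβ]
          exact (hun j i hij hβ.symm).2
  · intro i
    rcases hcases i with ⟨j, hij, hβ⟩ | ⟨j, hij, hβ⟩ | ⟨hi, h1, h2⟩
    · obtain ⟨k1, k2, k3, k4, k5, k6, k7, k8, k9⟩ := hy i j hij hβ
      obtain ⟨p1, -, p3, -⟩ := hp1 i j hij hβ
      rw [p1, p3]
      exact ⟨k6, k8⟩
    · obtain ⟨k1, k2, k3, k4, k5, k6, k7, k8, k9⟩ := hy j i hij hβ
      obtain ⟨-, p2, -, p4⟩ := hp1 j i hij hβ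
      rw [p2, p4]
      exact ⟨k6.trans k7, k9⟩
    · rw [h1, h2]
      exact hcc i hi
  · intro i j hne hβ
    rcases lt_or_gt_of_ne hne with hij | hij
    · obtain ⟨k1, k2, k3, k4, k5, k6, k7, k8, k9⟩ := hy i j hij hβ
      obtain ⟨-, -, p3, p4⟩ := hp1 i j hij hβ
      rw [p3, p4]
      exact k7.ne
    · obtain ⟨k1, k2, k3, k4, k5, k6, k7, k8, k9⟩ := hy j i hij hβ.symm
      obtain ⟨-, -, p3, p4⟩ := hp1 j i hij hβ.symm
      rw [p3, p4]
      exact k7.ne'

end Pool.Agent.PFJ.H41
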